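import Pool.Agent.L7h11.NP.Rec

/-!
# MP_30cc74_co: every graph with at least `3 * 2 ^ (k - 1) - 2` vertices has `k` nonpositive eigenvalues

Proof.  In a set `X` of `n ≥ 2 b + 2` vertices there are two vertices `x ≠ y` which are adjacent to the
same vertices in a subset `Y ⊆ X ∖ {x, y}` with `|Y| ≥ b` (double counting).  The vector `e_x - e_y` is
orthogonal to all vectors supported in `Y` with respect to the adjacency form, and its own value is
`0` or `-2`. We go on with `Y`, and take `e_x` for the last vertex: the adjacency form is nonpositive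
on a space of dimension `k`.
-/

set_option autoImplicit false

open Finset

namespace Pool.Agent.Results.MP_30cc74_co.ExponentialUpperBound

theorem result : ∀ (k : ℕ), 1 ≤ k → ∀ (V : Type) [Fintype V] [DecidableEq V] (G : SimpleGraph V)
    [DecidableRel G.Adj] (hA : (G.adjMatrix ℝ).IsHermitian),
    3 * 2 ^ (k - 1) ≤ Fintype.card V + 2 →
    k ≤ (univ.filter (fun i => hA.eigenvalues i ≤ 0)).card := by
  intro k hk V _ _ G _ hA hV
  obtain ⟨j, rfl⟩ : ∃ j, k = j + 1 := ⟨k - 1, by omega⟩
  obtain ⟨ext, h1, -, h3⟩ := Pool.Agent.L7h11.NP.rec G j univ (by simpa using hV)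
  simpa using Pool.Agent.L7h11.NP.card_le_nonpos hA ext h1 h3

end Pool.Agent.Results.MP_30cc74_co.ExponentialUpperBound
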